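import Pool.Agent.Helper42.RD.Goals2

/-!
# Change of the prime for elements of type `ω`
-/

namespace Pool.Agent.Helper8.RD

open NumberField Polynomial Module IsDedekindDomain Pool.Agent.Helper51.SigLeo
open Pool.Agent.Helper51.RP Pool.Agent.Helper42.RD

section

variable {M : Type} [Field M] [NumberField M]

theorem ordv_mul (v : HeightOneSpectrum (𝓞 M)) {x y : M} (hx : x ≠ 0) (hy : y ≠ 0) :
    ordv v (x * y) = ordv v x + ordv v y := by
  unfold ordv
  rw [map_mul, WithZero.log_mul ((Valuation.ne_zero_iff _).2 hx) ((Valuation.ne_zero_iff _).2 hy)]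
  ring

theorem ordv_pow (v : HeightOneSpectrum (𝓞 M)) (x : M) (n : ℕ) :
    ordv v (x ^ n) = n * ordv v x := by
  unfold ordv
  rw [map_pow, WithZero.log_pow]
  simp

/-- Powers of elements congruent to `1`. -/
theorem pow_sub_one_lt (v : HeightOneSpectrum (𝓞 M)) {u : M} (hu : v.valuation M (u - 1) < 1)
    (n : ℕ) : v.valuation M (u ^ n - 1) < 1 := by
  have h1 : v.valuation M u ≤ 1 := by
    have h2 : u = (u - 1) + 1 := by ring
    rw [h2]
    refine (Valuation.map_add _ _ _).trans (max_le hu.le ?_)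
    rw [map_one]
  induction n with
  | zero =>
    rw [pow_zero, sub_self, map_zero]
    exact zero_lt_one
  | succ n ih =>
    have h3 : u ^ (n + 1) - 1 = u ^ n * (u - 1) + (u ^ n - 1) := by ring
    rw [h3]
    refine lt_of_le_of_lt (Valuation.map_add _ _ _) (max_lt ?_ ih)
    rw [map_mul, map_pow]
    refine lt_of_le_of_lt (mul_le_mul' (pow_le_one' h1 n) le_rfl) ?_
    rw [one_mul]
    exact hu

end

/-- E_SHF. -/
theorem e_shf : E_SHF := by
  intro p hp K K₁ _ _ _ _ ε hε a ha hom Q Q₁ hconj hQ c hloc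
  obtain ⟨g, hg⟩ := hconj
  obtain ⟨n, d, hn, hd⟩ := hom g
  have hga : g a ≠ 0 := fun h => ha (by
    have := congrArg g.symm h
    simpa using this)
  have hd0 : d ≠ 0 := by
    rintro rfl
    rw [zero_pow hp.out.ne_zero, mul_zero] at hd
    exact hga hd
  have hnp : n.Coprime p := by
    rw [Nat.coprime_comm, hp.out.coprime_iff_not_dvd]
    rintro ⟨k, rfl⟩
    rw [pow_mul, hε.pow_eq_one, one_pow] at hn
    have h1 : ε = 1 := by
      have := congrArg g.symm hn
      simpa using this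
    have h2 := hε.ne_one hp.out.one_lt
    exact h2 h1
  have hord : ordv Q a = n * ordv Q₁ a + p * ordv Q₁ d := by
    have h1 : ordv Q a = ordv Q₁ (g a) := by
      unfold ordv
      rw [hg]
    rw [h1, hd, ordv_mul _ (pow_ne_zero _ ha) (pow_ne_zero _ hd0), ordv_pow, ordv_pow]
  refine ⟨fun h => hQ ?_, ?_⟩
  · rw [hord]
    exact dvd_add (h.mul_left _) (dvd_mul_right _ _)
  obtain ⟨j, y, hy⟩ := hloc
  -- the inverse of `n`
  obtain ⟨n', l, hnl⟩ : ∃ n' l : ℕ, n * n' = 1 + p * l := by
    obtain ⟨m, hm⟩ := Nat.exists_mul_mod_eq_one_of_coprime hnp hp.out.one_lt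
    refine ⟨m, n * m / p, ?_⟩
    have := Nat.mod_add_div (n * m) p
    rw [hm.2] at this
    exact this.symm
  have hsign : ((-1 : K₁) ^ (p - 1)) ^ n' = (-1) ^ (p - 1) := by
    rcases hp.out.eq_two_or_odd' with h2 | h2
    · subst h2
      have hodd : Odd n' := by
        have h3 : Odd (n * n') := by
          rw [hnl]
          exact ⟨l, by ring⟩
        exact (Nat.odd_mul.1 h3).2
      norm_num
      exact hodd.neg_one_pow
    · have h3 : Even (p - 1) := by
        obtain ⟨k, hk⟩ := h2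
        exact ⟨k, by omega⟩
      rw [h3.neg_one_pow, one_pow]
  set u : K₁ := (-1) ^ (p - 1) * (a ^ n * d ^ p) * (algebraMap K K₁ c) ^ j * (g y) ^ p with hu
  have hgu : g ((-1) ^ (p - 1) * a * (algebraMap K K₁ c) ^ j * y ^ p - 1) = u - 1 := by
    rw [hu, map_sub, map_mul, map_mul, map_mul, map_pow, map_pow, map_pow, map_neg, map_one, hd,
      AlgEquiv.commutes]
  have hu1 : Q₁.valuation K₁ (u - 1) < 1 := by
    rw [← hgu, hg]
    exact hy
  refine ⟨j * n', a ^ l * d ^ n' * (g y) ^ n', ?_⟩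
  have h2 := pow_sub_one_lt Q₁ hu1 n'
  have h3 : u ^ n' = (-1) ^ (p - 1) * a * (algebraMap K K₁ c) ^ (j * n') *
      (a ^ l * d ^ n' * (g y) ^ n') ^ p := by
    rw [hu]
    have h4 : a ^ (n * n') = a * (a ^ l) ^ p := by
      rw [hnl, pow_add, pow_one, ← pow_mul, mul_comm p l]
    calc ((-1) ^ (p - 1) * (a ^ n * d ^ p) * (algebraMap K K₁ c) ^ j * (g y) ^ p) ^ n' =
        ((-1 : K₁) ^ (p - 1)) ^ n' * a ^ (n * n') * d ^ (p * n') *
          (algebraMap K K₁ c) ^ (j * n') * (g y) ^ (p * n') := by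
          simp only [mul_pow, ← pow_mul]
          ring
      _ = _ := by
          rw [hsign, h4]
          simp only [mul_pow, ← pow_mul]
          ring
  rw [h3] at h2
  exact h2

end Pool.Agent.Helper8.RD
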